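import Pool.Agent.Helper34.ST.Basic

/-!
Module RWU: balanced walks, uniform version.
-/

set_option autoImplicit false

namespace Pool.Agent.Helper34.ST

open Finset

theorem rwu_bound {α : Type} [Finite α] (P : α → ℕ → Prop) (hm : ∀ a K K', K ≤ K' → P a K → P a K')
    (h : ∀ a, ∃ K, P a K) : ∃ K, ∀ a, P a K := by
  choose f hf using h
  obtain ⟨B, hB⟩ := (Set.finite_range f).bddAbove
  exact ⟨B, fun a => hm a _ _ (hB ⟨a, rfl⟩) (hf a)⟩

theorem rwu_mono {ι : Type} [Fintype ι] {r : ι → ι → Prop} {η : ℝ} {K K' : ℕ} (hK : K ≤ K')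
    (h : Bal r η K) : Bal r η K' := by
  intro d hd hw σ k
  obtain ⟨W, h1, h2⟩ := h d hd hw σ k
  refine ⟨W, h1, fun i => (h2 i).trans ?_⟩
  have : (K : ℝ) ≤ (K' : ℝ) := by exact_mod_cast hK
  linarith

theorem rwu_transport {ι κ : Type} [Fintype ι] [Fintype κ] (e : ι ≃ κ) (r : ι → ι → Prop) {η : ℝ}
    {K : ℕ} (h : Bal (fun a b : κ => r (e.symm a) (e.symm b)) η K) : Bal r η K := by
  intro d hd hw σ k
  obtain ⟨w, w1, w2, w3, w4, w5⟩ := hw
  have hw' : Wt (fun a b : κ => r (e.symm a) (e.symm b)) d := by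
    refine ⟨fun a b => w (e.symm a) (e.symm b), fun a b => w1 _ _, fun a b hab => w2 _ _ hab,
      fun a b => w3 _ _, fun a => ?_, fun b => ?_⟩
    · exact (w4 (e.symm a)).trans (le_of_eq (Equiv.sum_comp e.symm (fun j => w (e.symm a) j)).symm)
    · exact (w5 (e.symm b)).trans (le_of_eq (Equiv.sum_comp e.symm (fun j => w j (e.symm b))).symm)
  obtain ⟨W, h1, h2⟩ := h d hd hw' σ k
  refine ⟨fun t => e.symm (W t), ?_, ?_⟩
  · intro t h3 h4
    exact h1 t h3 h4
  · intro i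
    have hs : {t | t ≤ k ∧ e.symm (W t) = i} = {t | t ≤ k ∧ W t = e i} := by
      ext t
      exact and_congr_right fun _ => Equiv.symm_apply_eq e
    rw [hs]
    exact h2 (e i)

theorem st_RWU (h1 : ST_WIDE) (h2 : ST_HEDGE) : ST_RWU := by
  intro M η hη
  have key : ∀ m : Fin (M + 1), ∃ K : ℕ, ∀ r : Fin m → Fin m → Prop, Nonempty (Fin m) → Bal r η K := by
    intro m
    refine rwu_bound (fun (r : Fin m → Fin m → Prop) (K : ℕ) => Nonempty (Fin m) → Bal r η K) ?_ ?_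
    · intro r K K' hK h hne
      exact rwu_mono hK (h hne)
    · intro r
      by_cases hne : Nonempty (Fin m)
      · obtain ⟨K, hK⟩ := h2 (Fin m) r (h1 (Fin m) r) η hη
        exact ⟨K, fun _ => hK⟩
      · exact ⟨0, fun h => absurd h hne⟩
  obtain ⟨K, hK⟩ := rwu_bound
    (fun (m : Fin (M + 1)) (K : ℕ) => ∀ r : Fin m → Fin m → Prop, Nonempty (Fin m) → Bal r η K)
    (fun m K K' h hh r hne => rwu_mono h (hh r hne)) key
  refine ⟨K, ?_⟩
  intro ι _ _ r hc
  have e : ι ≃ Fin (Fintype.card ι) := Fintype.equivFin ι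
  refine rwu_transport e r ?_
  have hne : Nonempty (Fin (Fintype.card ι)) := ⟨e (Classical.arbitrary ι)⟩
  exact hK ⟨Fintype.card ι, Nat.lt_succ_of_le hc⟩ _ hne

end Pool.Agent.Helper34.ST
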